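import Pool.Agent.H773.LK.Spec2

/-!
S_DI (helper282 for helper773): direct integrals of continuous families of operators over `(0,1)`.
-/

set_option autoImplicit false
set_option linter.unusedSectionVars false

open MeasureTheory Set Filter Topology
open scoped InnerProductSpace

namespace Pool.Agent.H282.LK

open Pool.Agent.H773.LK

section

variable {G G' G'' : Type} [NormedAddCommGroup G] [InnerProductSpace ℂ G]
  [CompleteSpace G] [NormedAddCommGroup G'] [InnerProductSpace ℂ G'] [CompleteSpace G']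
  [NormedAddCommGroup G''] [InnerProductSpace ℂ G''] [CompleteSpace G'']

theorem asm_apply {T : ℝ → G →L[ℂ] G'} (hT : ContinuousOn T (Ioo 0 1)) (F : DI G) :
    AEStronglyMeasurable (fun θ => T θ (F θ)) m01 := by
  have h1 : AEStronglyMeasurable T m01 := hT.aestronglyMeasurable measurableSet_Ioo
  have h2 : AEStronglyMeasurable (fun θ => F θ) m01 := Lp.aestronglyMeasurable F
  exact (ContinuousLinearMap.apply ℂ G' : G →L[ℂ] (G →L[ℂ] G') →L[ℂ] G').aestronglyMeasurable_comp₂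
    h2 h1

theorem bound_apply {T : ℝ → G →L[ℂ] G'} {C : ℝ} (hC : ∀ θ ∈ Ioo (0 : ℝ) 1, ‖T θ‖ ≤ C)
    (F : DI G) : ∀ᵐ θ ∂m01, ‖T θ (F θ)‖ ≤ max C 0 * ‖F θ‖ := by
  filter_upwards [ae_restrict_mem measurableSet_Ioo] with θ hθ
  refine ((T θ).le_opNorm _).trans ?_
  exact mul_le_mul_of_nonneg_right ((hC θ hθ).trans (le_max_left _ _)) (norm_nonneg _)

theorem memLp_apply {T : ℝ → G →L[ℂ] G'} {C : ℝ} (hT : ContinuousOn T (Ioo 0 1))
    (hC : ∀ θ ∈ Ioo (0 : ℝ) 1, ‖T θ‖ ≤ C) (F : DI G) :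
    MemLp (fun θ => T θ (F θ)) 2 m01 :=
  (Lp.memLp F).of_le_mul (asm_apply hT F) (bound_apply hC F)

theorem exists_DI (T : ℝ → G →L[ℂ] G') (C : ℝ) (hT : ContinuousOn T (Ioo 0 1))
    (hC : ∀ θ ∈ Ioo (0 : ℝ) 1, ‖T θ‖ ≤ C) :
    ∃ TT : DI G →L[ℂ] DI G', IsDI T TT ∧ ‖TT‖ ≤ max C 0 := by
  let L : DI G →ₗ[ℂ] DI G' :=
    { toFun := fun F => (memLp_apply hT hC F).toLp _
      map_add' := by
        intro F H
        apply Lp.ext
        filter_upwards [(memLp_apply hT hC (F + H)).coeFn_toLp, (memLp_apply hT hC F).coeFn_toLp,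
          (memLp_apply hT hC H).coeFn_toLp, Lp.coeFn_add F H,
          Lp.coeFn_add ((memLp_apply hT hC F).toLp _) ((memLp_apply hT hC H).toLp _)]
          with θ h1 h2 h3 h4 h5
        rw [h1, h5, Pi.add_apply, h2, h3, h4, Pi.add_apply, map_add]
      map_smul' := by
        intro c F
        apply Lp.ext
        filter_upwards [(memLp_apply hT hC (c • F)).coeFn_toLp, (memLp_apply hT hC F).coeFn_toLp,
          Lp.coeFn_smul c F, Lp.coeFn_smul c ((memLp_apply hT hC F).toLp _)]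
          with θ h1 h2 h4 h5
        rw [RingHom.id_apply, h1, h5, Pi.smul_apply, h2, h4, Pi.smul_apply, map_smul] }
  have hL : ∀ F, (L F : ℝ → G') =ᵐ[m01] fun θ => T θ (F θ) := fun F =>
    (memLp_apply hT hC F).coeFn_toLp
  have hb : ∀ F, ‖L F‖ ≤ max C 0 * ‖F‖ := by
    intro F
    apply Lp.norm_le_mul_norm_of_ae_le_mul
    filter_upwards [hL F, bound_apply hC F] with θ h1 h2
    rw [h1]
    exact h2
  refine ⟨L.mkContinuous (max C 0) hb, hL, ?_⟩
  exact L.mkContinuous_norm_le (le_max_right _ _) hb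

theorem comp_DI (T : ℝ → G →L[ℂ] G') (S : ℝ → G' →L[ℂ] G'') (TT : DI G →L[ℂ] DI G')
    (SS : DI G' →L[ℂ] DI G'') (h1 : IsDI T TT) (h2 : IsDI S SS) :
    IsDI (fun θ => S θ ∘L T θ) (SS ∘L TT) := by
  intro F
  filter_upwards [h1 F, h2 (TT F)] with θ e1 e2
  show (SS (TT F)) θ = S θ (T θ (F θ))
  rw [e2, e1]

theorem lin_DI (T T' : ℝ → G →L[ℂ] G') (TT TT' : DI G →L[ℂ] DI G') (c c' : ℂ) (h : IsDI T TT)
    (h' : IsDI T' TT') : IsDI (fun θ => c • T θ + c' • T' θ) (c • TT + c' • TT') := by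
  intro F
  have e : (c • TT + c' • TT') F = c • TT F + c' • TT' F := rfl
  rw [e]
  filter_upwards [h F, h' F, Lp.coeFn_add (c • TT F) (c' • TT' F), Lp.coeFn_smul c (TT F),
    Lp.coeFn_smul c' (TT' F)] with θ e1 e2 e3 e4 e5
  rw [e3, Pi.add_apply, e4, e5, Pi.smul_apply, Pi.smul_apply, e1, e2]
  rfl

theorem uniq_DI (T : ℝ → G →L[ℂ] G') (TT TT' : DI G →L[ℂ] DI G') (h : IsDI T TT)
    (h' : IsDI T TT') : TT = TT' := by
  ext1 F
  apply Lp.ext
  filter_upwards [h F, h' F] with θ e1 e2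
  rw [e1, e2]

theorem adj_DI (T : ℝ → G →L[ℂ] G') (TT : DI G →L[ℂ] DI G') (C : ℝ)
    (hT : ContinuousOn T (Ioo 0 1)) (hC : ∀ θ ∈ Ioo (0 : ℝ) 1, ‖T θ‖ ≤ C) (h : IsDI T TT) :
    IsDI (fun θ => (T θ).adjoint) TT.adjoint := by
  have hT' : ContinuousOn (fun θ => (T θ).adjoint) (Ioo 0 1) :=
    (ContinuousLinearMap.adjoint (𝕜 := ℂ) (E := G) (F := G')).continuous.comp_continuousOn hT
  have hC' : ∀ θ ∈ Ioo (0 : ℝ) 1, ‖(T θ).adjoint‖ ≤ C := by
    intro θ hθ
    rw [LinearIsometryEquiv.norm_map]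
    exact hC θ hθ
  obtain ⟨SS, hSS, -⟩ := exists_DI _ C hT' hC'
  have e : SS = TT.adjoint := by
    rw [ContinuousLinearMap.eq_adjoint_iff]
    intro F H
    rw [L2.inner_def, L2.inner_def]
    apply integral_congr_ae
    filter_upwards [hSS F, h H] with θ e1 e2
    rw [e1, e2, ContinuousLinearMap.adjoint_inner_left]
  rw [← e]
  exact hSS

end

theorem t_DI : S_DI := by
  intro G G' G'' _ _ _ _ _ _ _ _ _
  refine ⟨exists_DI, comp_DI, lin_DI, uniq_DI, adj_DI, ?_⟩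
  intro F
  exact Filter.EventuallyEq.rfl

end Pool.Agent.H282.LK
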